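import Pool.Agent.TH188.VT.Defs

/-!
# Covers of schön subvarieties of tori over composita of function fields of surfaces: definitions
-/

set_option autoImplicit false

universe u

open Pool.Agent.TH188.VT

namespace Pool.Agent.TH214.SD

/-- The Laurent polynomial `∑ e, F e * (U, Y) ^ e` with exponents `e ∈ ℤ^h × ℤ^n`, evaluated at the
elements `u 1, ..., u h` and `y 1, ..., y n` of a field `K`. -/
noncomputable def value {k K : Type u} [Field k] [Field K] [Algebra k K] {h n : ℕ}
    (F : (Fin h ⊕ Fin n → ℤ) →₀ k) (u : Fin h → K) (y : Fin n → K) : K :=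
  ∑ e ∈ F.support, F e • ∏ j, Sum.elim u y j ^ e j

/-- The exponents of the initial form of the Laurent polynomial `F` with respect to the
weights `l`: those of minimal weight `l · e`. -/
def initialExponents {k : Type u} [Field k] {h n : ℕ} (F : (Fin h ⊕ Fin n → ℤ) →₀ k)
    (l : Fin h ⊕ Fin n → ℤ) : Finset (Fin h ⊕ Fin n → ℤ) :=
  F.support.filter (fun e => ∀ e' ∈ F.support, ∑ j, l j * e j ≤ ∑ j, l j * e' j)

/-- The value of the initial form of `F` with respect to the weights `l` at the point `z` of the
torus over the algebraic closure of `k`. -/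
noncomputable def initialValue {k : Type u} [Field k] {h n : ℕ}
    (F : (Fin h ⊕ Fin n → ℤ) →₀ k) (l : Fin h ⊕ Fin n → ℤ)
    (z : Fin h ⊕ Fin n → AlgebraicClosure k) : AlgebraicClosure k :=
  ∑ e ∈ initialExponents F l, algebraMap k (AlgebraicClosure k) (F e) * ∏ j, z j ^ e j

/-- The vector of the values of the logarithmic partial derivatives `Y i * ∂ / ∂ Y i`,
`i = 1, ..., n` (with respect to the second group of variables only), of the initial form of `F`
with respect to the weights `l` at the point `z`. -/
noncomputable def initialGradient {k : Type u} [Field k] {h n : ℕ}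
    (F : (Fin h ⊕ Fin n → ℤ) →₀ k) (l : Fin h ⊕ Fin n → ℤ)
    (z : Fin h ⊕ Fin n → AlgebraicClosure k) : Fin n → AlgebraicClosure k :=
  fun i => ∑ e ∈ initialExponents F l,
    algebraMap k (AlgebraicClosure k) (F e) * (e (Sum.inr i) : AlgebraicClosure k) *
      ∏ j, z j ^ e j

/-- The Laurent polynomials `G 1, ..., G q` in `U` and `Y` are schön equations of codimension at
least `c` with respect to the variables `Y`: for all weights `l ∈ ℤ^h × ℤ^n` and all points
`z` of the torus over the algebraic closure of `k` at which the initial forms of all `G i` vanish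
the vectors of the derivatives of these initial forms in the directions of `Y` span a space of
dimension at least `c`. -/
def SchonEquations {k : Type u} [Field k] {h n q : ℕ} (G : Fin q → (Fin h ⊕ Fin n → ℤ) →₀ k)
    (c : ℕ) : Prop :=
  ∀ (l : Fin h ⊕ Fin n → ℤ) (z : Fin h ⊕ Fin n → AlgebraicClosure k), (∀ j, z j ≠ 0) →
    (∀ i, initialValue (G i) l z = 0) →
    c ≤ Module.finrank (AlgebraicClosure k) (Submodule.span (AlgebraicClosure k)
      (Set.range fun i => initialGradient (G i) l z))

/-- The Laurent polynomials `F 1, ..., F s` are jointly nondegenerate, strongly for the indices in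
`T`, on the subscheme given by `G 1, ..., G q`: for all weights `l ∈ ℤ^h × ℤ^n` and all points `z` of
the torus over the algebraic closure of `k` at which the initial forms of all `G i` vanish, if
`t ∈ T` or `F t` has a term of negative weight `l · e`, then the vector of the derivatives of the
initial form of `F t` at `z` in the directions of `Y` is not a linear combination of those of
the `G i` and of those `F t'`, `t' ≠ t`, for which `t' ∈ T` or `F t'` has a term of
weight `≤ 0`. -/
def NondegenerateOn {k : Type u} [Field k] {h n q s : ℕ}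
    (G : Fin q → (Fin h ⊕ Fin n → ℤ) →₀ k) (F : Fin s → (Fin h ⊕ Fin n → ℤ) →₀ k)
    (T : Set (Fin s)) : Prop :=
  ∀ (l : Fin h ⊕ Fin n → ℤ) (z : Fin h ⊕ Fin n → AlgebraicClosure k), (∀ j, z j ≠ 0) →
    (∀ i, initialValue (G i) l z = 0) → ∀ t, (t ∈ T ∨ ∃ e ∈ (F t).support, ∑ j, l j * e j < 0) →
    initialGradient (F t) l z ∉ Submodule.span (AlgebraicClosure k)
      ((Set.range fun i => initialGradient (G i) l z) ∪
        {v | ∃ t', t' ≠ t ∧ (t' ∈ T ∨ ∃ e ∈ (F t').support, ∑ j, l j * e j ≤ 0) ∧
          v = initialGradient (F t') l z})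

/-- The Laurent polynomials `F 1, ..., F s` are strongly nondegenerate on the subscheme given by
`G 1, ..., G q`: for all weights `l ∈ ℤ^h × ℤ^n` and all points `z` of the torus over the algebraic
closure of `k` at which the initial forms of all `G i` vanish the vector of the derivatives of
the initial form of `F t` at `z` in the directions of `Y` is not a linear combination of those
of the `G i` and of the `F t'`, `t' ≠ t`. -/
def StronglyNondegenerateOn {k : Type u} [Field k] {h n q s : ℕ}
    (G : Fin q → (Fin h ⊕ Fin n → ℤ) →₀ k) (F : Fin s → (Fin h ⊕ Fin n → ℤ) →₀ k) : Prop :=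
  ∀ (l : Fin h ⊕ Fin n → ℤ) (z : Fin h ⊕ Fin n → AlgebraicClosure k), (∀ j, z j ≠ 0) →
    (∀ i, initialValue (G i) l z = 0) → ∀ t,
    initialGradient (F t) l z ∉ Submodule.span (AlgebraicClosure k)
      ((Set.range fun i => initialGradient (G i) l z) ∪
        {v | ∃ t', t' ≠ t ∧ v = initialGradient (F t') l z})

section

variable {k K : Type u} [Field k] [Field K] [Algebra k K] {m n h d q s r o : ℕ}
  (E : Fin m → IntermediateField k K)

/-- The structure of the subfield generated by the `E i` and the `y j`: `E 1, ..., E m` are linearly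
disjoint function fields of surfaces over `k`, the `u a ≠ 0` are products of elements of the
`E i`, the elements `y j ≠ 0` satisfy the equations `G i (u, y) = 0`, where the `G i` are schön
equations of codimension at least `c` with respect to `Y`, and `d = n - c` of the `y j`, those with
the indices `ρ l`, are algebraically independent over the field generated by the `E i`. -/
structure IsSchonBase (c : ℕ) (u : Fin h → K) (y : Fin n → K)
    (G : Fin q → (Fin h ⊕ Fin n → ℤ) →₀ k) (ρ : Fin d → Fin n) : Prop where
  surfaces : AreIndependentSurfaceFields E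
  products : ∀ a, u a ≠ 0 ∧ ∃ v : ∀ i, E i, u a = ∏ i, (v i : K)
  ne_zero : ∀ j, y j ≠ 0
  equations : ∀ i, value (G i) u y = 0
  schon : SchonEquations G c
  codimension : c + d = n
  independent : AlgebraicIndependent (IntermediateField.adjoin k (⋃ i, (E i : Set K))) (y ∘ ρ)

/-- The element `a` of `K` is a product of elements of the `E i` and of powers of the `y j`. -/
def IsProduct (y : Fin n → K) (a : K) : Prop :=
  ∃ (v : ∀ i, E i) (e : Fin n → ℤ), (∀ i, v i ≠ 0) ∧ a = (∏ i, (v i : K)) * ∏ j, y j ^ e j

/-- The field `K` is generated over the field of `IsSchonBase` by elements `w j` such that the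
elements `w j ^ p - w j` are linear combinations with integral coefficients of functions
`f i ∈ E i` and of the elements `F t (u, y)`, where the Laurent polynomials `F t` are jointly
nondegenerate on the subscheme given by the `G i`, strongly for the indices in `T`, and if there is
an index `t` not in `T` then the `G i` and these `F t` involve only the variables `Y`. -/
structure IsWildCover (p c : ℕ) (u : Fin h → K) (y : Fin n → K)
    (G : Fin q → (Fin h ⊕ Fin n → ℤ) →₀ k) (ρ : Fin d → Fin n) (f : ∀ i, E i)
    (F : Fin s → (Fin h ⊕ Fin n → ℤ) →₀ k) (T : Set (Fin s)) (w : Fin r → K) : Prop where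
  base : IsSchonBase E c u y G ρ
  nondegenerate : NondegenerateOn G F T
  untwisted : ∀ t ∉ T, (∀ i, ∀ e ∈ (G i).support, ∀ a, e (Sum.inl a) = 0) ∧
    ∀ e ∈ (F t).support, ∀ a, e (Sum.inl a) = 0
  roots : ∀ j, w j ^ p - w j ∈ AddSubgroup.closure
    ((Set.range fun i => (f i : K)) ∪ Set.range fun t => value (F t) u y)
  generate : IntermediateField.adjoin k
    (Set.range w ∪ (Set.range y ∪ ⋃ i, (E i : Set K))) = ⊤

/-- The field `K` is generated over the field of `IsSchonBase` by elements `w j` such that the
elements `w j ^ p` are linear combinations with coefficients in `k` of products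
`g t 1 * ... * g t m` of elements `g t i ∈ E i`, where for each `i` at most one of the `g t i` is
not a `p`-th power in `E i`, and of the elements `F t (u, y)`, where the Laurent polynomials `F t`
are strongly nondegenerate on the subscheme given by the `G i`. -/
structure IsInseparableCover (p c : ℕ) (u : Fin h → K) (y : Fin n → K)
    (G : Fin q → (Fin h ⊕ Fin n → ℤ) →₀ k) (ρ : Fin d → Fin n) (g : Fin o → ∀ i, E i)
    (F : Fin s → (Fin h ⊕ Fin n → ℤ) →₀ k) (w : Fin r → K) : Prop where
  base : IsSchonBase E c u y G ρ
  nondegenerate : StronglyNondegenerateOn G F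
  powers : ∀ i t t', t ≠ t' → (∃ b, b ^ p = g t i) ∨ ∃ b, b ^ p = g t' i
  roots : ∀ j, w j ^ p ∈ Submodule.span k
    ((Set.range fun t => ∏ i, (g t i : K)) ∪ Set.range fun t => value (F t) u y)
  generate : IntermediateField.adjoin k
    (Set.range w ∪ (Set.range y ∪ ⋃ i, (E i : Set K))) = ⊤

end

end Pool.Agent.TH214.SD
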