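import Pool.Agent.TH214.SD.Defs
import Pool.Agent.TH214.U.SchP
import Pool.Agent.TH214.V.ClosV
import Pool.Agent.TH188.WP.Res
import Pool.Agent.TH188.VT.Main

/-!
# Covers of schön subvarieties of tori over composita of function fields of surfaces
-/

set_option autoImplicit false
set_option linter.unusedVariables false
set_option linter.unusedSectionVars false

universe u

open Polynomial TensorProduct Pool.Agent.TH188.WP Pool.Agent.TH188.WQ Pool.Agent.W558
  Pool.Agent.TH188.VT Pool.Agent.TH188.VQ Pool.Agent.W558.WT Pool.Agent.TH214.V AlgebraicGeometry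
  CategoryTheory

namespace Pool.Agent.TH214.SD

section trdeg

variable {k K : Type u} [Field k] [Field K] [Algebra k K] {m : ℕ}
  {E : Fin m → IntermediateField k K}

lemma surf_trdeg (hE : AreIndependentSurfaceFields E) (i : Fin m) :
    Algebra.trdeg k (E i) < Cardinal.aleph0 := by
  rcases hE with ⟨h, -⟩ | ⟨x, hx, hE⟩
  · rw [(h i).1]
    exact Cardinal.ofNat_lt_aleph0
  · rw [hE i]
    have hxi : AlgebraicIndependent k (x i) :=
      hx.comp (fun c => (i, c)) (Prod.mk_right_injective i)
    rw [(pair_field (x i) hxi).1]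
    exact Cardinal.ofNat_lt_aleph0

open scoped IntermediateField.algebraAdjoinAdjoin in
/-- The field generated by finitely many elements and the surface fields has finite
transcendence degree. -/
theorem trdeg_fin (hE : AreIndependentSurfaceFields E) {X : Set K} (hX : X.Finite)
    (hgen : IntermediateField.adjoin k (X ∪ ⋃ i, (E i : Set K)) = ⊤) :
    Algebra.trdeg k K < Cardinal.aleph0 := by
  classical
  have hb : ∀ i, ∃ s : Set (E i), s.Finite ∧ IsTranscendenceBasis k ((↑) : s → E i) := by
    intro i
    obtain ⟨s, hs⟩ := exists_isTranscendenceBasis k (E i)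
    refine ⟨s, ?_, hs⟩
    have h1 := hs.cardinalMk_eq_trdeg
    exact Cardinal.lt_aleph0_iff_set_finite.1 (h1 ▸ surf_trdeg hE i)
  choose s hsf hs using hb
  let Z : Set K := X ∪ ⋃ i, (fun a : E i => (a : K)) '' s i
  have hZ : Z.Finite := hX.union (Set.finite_iUnion fun i => (hsf i).image _)
  let L := IntermediateField.adjoin k Z
  have halg : Algebra.IsAlgebraic L K := by
    have h1 : ∀ z ∈ X ∪ ⋃ i, (E i : Set K), IsAlgebraic L z := by
      rintro z (hz | hz)
      · exact isAlgebraic_algebraMap
          (⟨z, IntermediateField.subset_adjoin k _ (Or.inl hz)⟩ : L)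
      · obtain ⟨i, hi⟩ := Set.mem_iUnion.1 hz
        have h2 : Algebra.IsAlgebraic (Algebra.adjoin k (s i)) (E i) := by
          have h3 := (hs i).isAlgebraic
          rwa [Subtype.range_coe] at h3
        obtain ⟨P, hP0, hP⟩ := h2.isAlgebraic (⟨z, hi⟩ : E i)
        -- transport
        let φ : Algebra.adjoin k (s i) →+* L :=
          { toFun := fun a => ⟨((a : E i) : K), by
              have h4 : (E i).val (a : E i) ∈ (Algebra.adjoin k (s i)).map (E i).val :=
                ⟨_, a.2, rfl⟩
              rw [AlgHom.map_adjoin] at h4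
              refine IntermediateField.algebra_adjoin_le_adjoin k _
                (Algebra.adjoin_mono ?_ h4)
              rintro _ ⟨b, hb, rfl⟩
              exact Or.inr (Set.mem_iUnion.2 ⟨i, b, hb, rfl⟩)⟩
            map_one' := rfl
            map_mul' := fun _ _ => rfl
            map_zero' := rfl
            map_add' := fun _ _ => rfl }
        have hφ : Function.Injective φ := fun a b hab => by
          have h4 : ((a : E i) : K) = ((b : E i) : K) := congrArg (fun c : L => (c : K)) hab
          exact Subtype.ext (Subtype.ext h4)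
        refine ⟨P.map φ, (Polynomial.map_ne_zero_iff hφ).2 hP0, ?_⟩
        have h5 : ((Polynomial.aeval (⟨z, hi⟩ : E i) P : E i) : K) = 0 := by
          rw [hP]
          rfl
        rw [Polynomial.aeval_def, Polynomial.eval₂_map]
        rw [Polynomial.aeval_def] at h5
        have h6 := Polynomial.hom_eval₂ P (algebraMap (Algebra.adjoin k (s i)) (E i))
          (algebraMap (E i) K) (⟨z, hi⟩ : E i)
        rw [← h5]
        exact h6.symm
    let M : IntermediateField k K := (algebraicClosure L K).restrictScalars k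
    have h3 : IntermediateField.adjoin k (X ∪ ⋃ i, (E i : Set K)) ≤ M := by
      rw [IntermediateField.adjoin_le_iff]
      exact fun z hz => mem_algebraicClosure_iff.2 (h1 z hz)
    refine ⟨fun x => mem_algebraicClosure_iff.1 (h3 ?_)⟩
    rw [hgen]
    trivial
  have halg' : Algebra.IsAlgebraic (Algebra.adjoin k Z) K :=
    (IsFractionRing.comap_isAlgebraic_iff (A := Algebra.adjoin k Z) (K := L) (C := K)).2 halg
  obtain ⟨t, ht, hbt⟩ := exists_isTranscendenceBasis_subset (R := k) Z
  rw [← hbt.cardinalMk_eq_trdeg]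
  exact Cardinal.lt_aleph0_iff_set_finite.2 (hZ.subset ht)

end trdeg

section main

variable {p : ℕ} [Fact p.Prime] {k K : Type u} [Field k] [PerfectField k] [CharP k p] [Field K]
  [Algebra k K] {m n h c d q s r o : ℕ} {E : Fin m → IntermediateField k K} {u : Fin h → K}
  {y : Fin n → K} {G : Fin q → (Fin h ⊕ Fin n → ℤ) →₀ k} {ρ : Fin d → Fin n}

lemma ndv_of {F : Fin s → (Fin h ⊕ Fin n → ℤ) →₀ k} {tw : Fin s → Prop}
    (hND : NDVc G F (Function.Embedding.inr : Fin n ↪ Fin h ⊕ Fin n) tw c) :
    NDV G F (fun j => j.isRight = true) tw c := by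
  have h1 := ndv_of_ndvc hND
  have e1 : (fun j => j ∈ Set.range (Function.Embedding.inr : Fin n ↪ Fin h ⊕ Fin n)) =
      fun j : Fin h ⊕ Fin n => j.isRight = true := by
    funext j
    apply propext
    rcases j with j | j
    · constructor
      · rintro ⟨i, hi⟩
        exact absurd hi (by simp)
      · intro hi
        exact absurd hi (by simp)
    · exact ⟨fun _ => rfl, fun _ => ⟨j, rfl⟩⟩
  rwa [e1] at h1

/-- Models of the Artin-Schreier covers. -/
theorem wild_models {f : ∀ i, E i} {F : Fin s → (Fin h ⊕ Fin n → ℤ) →₀ k} {T : Set (Fin s)}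
    {w : Fin r → K} (hK : IsWildCover E p c u y G ρ f F T w) (S : Type) [Finite S] (v : S → K)
    (hv : ∀ b, IsProduct E y (v b)) :
    ∃ (T I : Type) (_ : Finite T) (_ : Fintype I) (M : LM (⊥ : Subalgebra k K) ⊤ T I)
      (Γ : S → I → ℤ), Fn M v Γ ∧ Frc M := by
  classical
  have htr : Algebra.trdeg k K < Cardinal.aleph0 :=
    trdeg_fin hK.base.surfaces (X := Set.range w ∪ Set.range y)
      ((Set.finite_range w).union (Set.finite_range y)) (by
        rw [Set.union_assoc]
        exact hK.generate)
  choose hu0 uu huu using hK.base.products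
  have huu0 : ∀ a i, uu a i ≠ 0 := by
    intro a i h0
    apply hu0 a
    rw [huu a]
    exact Finset.prod_eq_zero (Finset.mem_univ i) (by rw [h0]; rfl)
  have hND := ndv_of (G := G) (F := F) (tw := fun t => t ∈ T) (c := c) fun l z hz hv =>
    ⟨hK.base.schon l z hz hv, fun t ht => hK.nondegenerate l z hz hv t ht⟩
  have hun : ∀ t, ¬ (t ∈ T) → (∀ i, ∀ e ∈ (G i).support, ∀ j : Fin h ⊕ Fin n,
      ¬ j.isRight = true → e j = 0) ∧ ∀ e ∈ (F t).support, ∀ j : Fin h ⊕ Fin n,
        ¬ j.isRight = true → e j = 0 := by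
    intro t ht
    refine ⟨?_, ?_⟩
    · rintro i e he (j | j) hj
      · exact (hK.untwisted t ht).1 i e he j
      · exact absurd rfl hj
    · rintro e he (j | j) hj
      · exact (hK.untwisted t ht).2 e he j
      · exact absurd rfl hj
  exact Pool.Agent.TH214.U.sch_modelE (p := p) hK.base.surfaces htr f uu huu0 u huu y
      hK.base.ne_zero ρ hK.base.codimension hK.base.independent (Fin q) (Fin s) G F
      (fun t => t ∈ T) hK.base.equations hND hun w hK.roots hK.generate S v hv

/-- Models of the purely inseparable covers. -/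
theorem insep_models {g : Fin o → ∀ i, E i} {F : Fin s → (Fin h ⊕ Fin n → ℤ) →₀ k}
    {w : Fin r → K} (hK : IsInseparableCover E p c u y G ρ g F w) (S : Type) [Finite S]
    (v : S → K) (hv : ∀ b, IsProduct E y (v b)) :
    ∃ (T I : Type) (_ : Finite T) (_ : Fintype I) (M : LM (⊥ : Subalgebra k K) ⊤ T I)
      (Γ : S → I → ℤ), Fn M v Γ ∧ Frc M := by
  classical
  have htr : Algebra.trdeg k K < Cardinal.aleph0 :=
    trdeg_fin hK.base.surfaces (X := Set.range w ∪ Set.range y)
      ((Set.finite_range w).union (Set.finite_range y)) (by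
        rw [Set.union_assoc]
        exact hK.generate)
  choose hu0 uu huu using hK.base.products
  have huu0 : ∀ a i, uu a i ≠ 0 := by
    intro a i h0
    apply hu0 a
    rw [huu a]
    exact Finset.prod_eq_zero (Finset.mem_univ i) (by rw [h0]; rfl)
  have hND := ndv_of (G := G) (F := F) (tw := fun _ => True) (c := c) (by
    intro l z hz hv
    refine ⟨hK.base.schon l z hz hv, fun t _ => ?_⟩
    have h1 := hK.nondegenerate l z hz hv t
    have h2 : {v | ∃ t', t' ≠ t ∧ (True ∨ ∃ e ∈ (F t').support, ∑ j, l j * e j ≤ 0) ∧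
        v = gv (F t') (Function.Embedding.inr : Fin n ↪ Fin h ⊕ Fin n) l z} =
        {v | ∃ t', t' ≠ t ∧ v = initialGradient (F t') l z} := by
      ext v
      constructor
      · rintro ⟨t', h3, h4, h5⟩
        exact ⟨t', h3, h5⟩
      · rintro ⟨t', h3, h5⟩
        exact ⟨t', h3, Or.inl trivial, h5⟩
    rw [h2]
    exact h1)
  obtain ⟨lam, mu, hlm⟩ := exists_coeffP _ _ hK.roots
  let J' := {t : Fin o // ∀ i, g t i ≠ 0}
  have hlm' : ∀ j, w j ^ p = ∑ t : J', lam j t.1 • ∏ i, (g t.1 i : K) +
      ∑ t, mu j t • lv (F t) (Sum.elim u y) := by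
    intro j
    rw [hlm j]
    congr 1
    have h1 : ∑ t, lam j t • ∏ i, (g t i : K) =
        ∑ t ∈ Finset.univ.filter (fun t => ∀ i, g t i ≠ 0), lam j t • ∏ i, (g t i : K) := by
      refine (Finset.sum_filter_of_ne fun t _ ht i hi => ht ?_).symm
      rw [Finset.prod_eq_zero (Finset.mem_univ i) (by rw [hi]; rfl), smul_zero]
    rw [h1]
    exact Finset.sum_subtype (Finset.univ.filter fun t => ∀ i, g t i ≠ 0)
      (p := fun t => ∀ i, g t i ≠ 0) (F := inferInstance) (by simp) _
  exact Pool.Agent.TH214.U.sch_modelP (p := p) hK.base.surfaces htr J' (fun t => g t.1)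
      (fun i t t' hne => hK.powers i t.1 t'.1 fun h => hne (Subtype.ext h)) (fun t => t.2)
      uu huu0 u huu y hK.base.ne_zero ρ hK.base.codimension hK.base.independent (Fin q) (Fin s) G F
      hK.base.equations hND w (fun j t => lam j t.1) mu hlm' hK.generate S v hv

/-- Smooth charts over affine varieties with the function field `K`. -/
theorem exists_LM
    (hm : ∀ (S : Type) [Finite S] (v : S → K), (∀ b, IsProduct E y (v b)) →
      ∃ (T I : Type) (_ : Finite T) (_ : Fintype I) (M : LM (⊥ : Subalgebra k K) ⊤ T I)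
      (Γ : S → I → ℤ), Fn M v Γ ∧ Frc M)
    (A : Type u) [CommRing A] [IsDomain A] [Algebra k A] [Algebra.FiniteType k A] [Algebra A K]
    [IsScalarTower k A K] [IsFractionRing A K] (S : Finset A)
    (hS : ∀ a ∈ S, IsProduct E y (algebraMap A K a))
    (hA : ∀ a : A, IsIntegral (Algebra.adjoin k (S : Set A)) a) :
    ∃ (T I : Type) (_ : Finite T) (_ : Fintype I),
      Nonempty (LM (IsScalarTower.toAlgHom k A K).range (IsScalarTower.toAlgHom k A K).range
        T I) := by
  classical
  obtain ⟨ε⟩ : Nonempty ({a // a ∈ S} ≃ Fin S.card) := ⟨S.equivFin⟩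
  obtain ⟨T, I, hT, hI, M, Γ, hF, hR⟩ := hm (Fin S.card)
    (fun b => algebraMap A K (ε.symm b).1) (fun b => hS _ (ε.symm b).2)
  exact LM_of_fn' M _ Γ hF hR A
    (fun b => (ε.symm b).1) (fun b => rfl) (by
      have h1 : Set.range (fun b => (ε.symm b).1) = (S : Set A) := by
        ext a
        constructor
        · rintro ⟨b, rfl⟩
          exact (ε.symm b).2
        · intro ha
          exact ⟨ε ⟨a, ha⟩, by simp⟩
      rw [h1]
      exact hA)

/-- Resolution. -/
theorem resolvable
    (hm : ∀ (S : Type) [Finite S] (v : S → K), (∀ b, IsProduct E y (v b)) →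
      ∃ (T I : Type) (_ : Finite T) (_ : Fintype I) (M : LM (⊥ : Subalgebra k K) ⊤ T I)
      (Γ : S → I → ℤ), Fn M v Γ ∧ Frc M)
    (A : Type u) [CommRing A] [IsDomain A] [Algebra k A] [Algebra.FiniteType k A] [Algebra A K]
    [IsScalarTower k A K] [IsFractionRing A K] (S : Finset A)
    (hS : ∀ a ∈ S, IsProduct E y (algebraMap A K a))
    (hA : ∀ a : A, IsIntegral (Algebra.adjoin k (S : Set A)) a) :
    IsResolvableVariety (X := Spec (CommRingCat.of A))
      (Spec.map (CommRingCat.ofHom (algebraMap k A))) := by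
  obtain ⟨T, I, hT, hI, ⟨M⟩⟩ := exists_LM hm A S hS hA
  apply isResolvableVariety_spec
  exact hasResolution_of_LM _ (IsFractionRing.injective A K) M

end main

end Pool.Agent.TH214.SD
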